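import Pool.Agent.N598.ST.Main

/-!
# The local-global principle of helper598 for ray class fields: bridge lemmas (helper820)
-/

set_option autoImplicit false

namespace Pool.Agent.N820.RS

open NumberField IsDedekindDomain Pool.Agent.N598.ST

variable {K H : Type} [Field K] [NumberField K] [Field H] [NumberField H] [Algebra K H]

/-- every place of `H` lies over a place of `K` -/
theorem exists_under (Q : Place H) : ∃ q : Place K, Over K H Q q := by
  match Q with
  | .inl w => exact ⟨.inl (w.comap (algebraMap K H)), rfl⟩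
  | .inr P =>
    have hne : P.asIdeal.under (𝓞 K) ≠ ⊥ := by
      intro h0
      exact P.ne_bot (Ideal.eq_bot_of_comap_eq_bot h0)
    have hpr : (P.asIdeal.under (𝓞 K)).IsPrime := by
      have := P.isPrime
      infer_instance
    exact ⟨.inr ⟨P.asIdeal.under (𝓞 K), hpr, hne⟩, ⟨rfl⟩⟩

/-- and over only one -/
theorem over_unique {Q : Place H} {q q' : Place K} (h : Over K H Q q) (h' : Over K H Q q') :
    q = q' := by
  match Q, q, q', h, h' with
  | .inl w, .inl v, .inl v', h, h' =>
    have h : w.comap (algebraMap K H) = v := h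
    have h' : w.comap (algebraMap K H) = v' := h'
    rw [← h, ← h']
  | .inr P, .inr p, .inr p', h, h' =>
    have h : P.asIdeal.LiesOver p.asIdeal := h
    have h' : P.asIdeal.LiesOver p'.asIdeal := h'
    congr 1
    ext1
    rw [h.over, h'.over]

/-- the group `U^T`, if `S` has at least three elements -/
theorem inU_iff {S : Finset (Place K)} (h3 : 3 ≤ S.card) {p : Place K} (hp : p ∈ S) (u : H) :
    InU S p u ↔ u ≠ 0 ∧ ∀ Q : Place H, ¬ Over K H Q p → nabs Q u = 1 := by
  constructor
  · intro h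
    refine ⟨h.ne, fun Q hQ => ?_⟩
    obtain ⟨q, hq⟩ := exists_under (K := K) Q
    by_cases hqS : q ∈ S
    · exact h.many h3 q hqS (fun h0 => hQ (h0 ▸ hq)) Q hq
    · exact h.out q hqS Q hq
  · rintro ⟨h0, h1⟩
    refine ⟨h0, ?_, ?_, ?_⟩
    · intro q hq Q hQ
      exact h1 Q fun h2 => hq (over_unique hQ h2 ▸ hp)
    · intro _ q _ hqp Q hQ
      exact h1 Q fun h2 => hqp (over_unique hQ h2)
    · intro h2
      omega

/-- a complex place is totally split -/
theorem split_complex (v : InfinitePlace K) (hv : v.IsComplex) : TotallySplit K H (.inl v) := by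
  intro w hw
  have h := InfinitePlace.mult_comap_le (algebraMap K H) w
  rw [hw] at h
  have h1 : v.mult = 2 := by
    unfold InfinitePlace.mult
    rw [if_neg (InfinitePlace.not_isReal_iff_isComplex.2 hv)]
  have h2 : w.mult ≤ 2 := by
    unfold InfinitePlace.mult
    split_ifs <;> omega
  omega

/-- `c` times the conjecture with the condition on the absolute values in the form for `|S| ≥ 3` -/
def PMul (K H : Type) [Field K] [NumberField K] [Field H] [NumberField H] [Algebra K H]
    (c : ℤ) (S : Finset (Place K)) (p : Place K) : Prop :=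
  ∀ P : Place H, Over K H P p → ∀ a : Ideal (𝓞 K) → Gal(H/K), IsArtin S a →
    ∀ Z : Gal(H/K) → ℂ → ℂ, (∀ g, IsZeta S a g (Z g)) →
      ∃ u : H, u ≠ 0 ∧ (∀ Q : Place H, ¬ Over K H Q p → nabs Q u = 1) ∧
        (∀ g : Gal(H/K), (Real.log (nabs P (g u)) : ℂ) = -(c * W H * deriv (Z g) 0)) ∧
        AbRoot K (W H) u

theorem pmul_iff {S : Finset (Place K)} (h3 : 3 ≤ S.card) {p : Place K} (hp : p ∈ S) (c : ℤ) :
    PMul K H c S p ↔ StarkMul K H c S p := by
  unfold PMul StarkMul
  refine forall_congr' fun P => forall_congr' fun hP => forall_congr' fun a => forall_congr' fun ha =>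
    forall_congr' fun Z => forall_congr' fun hZ => exists_congr fun u => ?_
  rw [inU_iff h3 hp, and_assoc]

theorem local_global {S : Finset (Place K)} (h3 : 3 ≤ S.card) {p : Place K} (hp : p ∈ S)
    [IsAbelianGalois K H] (hs : TotallySplit K H p) :
    (∀ l : ℕ, l.Prime →
      (∀ (L : Type) [Field L] [NumberField L] [Algebra K L], Nonempty (L →ₐ[K] H) →
        CyclicOutside l Gal(L/K) → ∃ c : ℤ, ¬ (l : ℤ) ∣ c ∧ PMul K L c S p) →
      ∃ c : ℤ, ¬ (l : ℤ) ∣ c ∧ PMul K H c S p) ∧
    (PMul K H 1 S p ↔ ∀ l : ℕ, l.Prime → ∃ c : ℤ, ¬ (l : ℤ) ∣ c ∧ PMul K H c S p) := by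
  constructor
  · intro l hl hyp
    obtain ⟨c, h1, h2⟩ := part_of_sub l hl _ H rfl hs (S := S) fun L _ _ _ hL hc => by
      obtain ⟨c, h1, h2⟩ := hyp L hL hc
      exact ⟨c, h1, (pmul_iff h3 hp c).1 h2⟩
    exact ⟨c, h1, (pmul_iff h3 hp c).2 h2⟩
  · rw [pmul_iff h3 hp, ← stark_iff, stark_iff_parts]
    refine forall_congr' fun l => forall_congr' fun hl => exists_congr fun c => ?_
    rw [pmul_iff h3 hp]

/-- the set `S` of the infinite places and of the primes which divide `𝔣` -/
structure IsModulus (𝔣 : Ideal (𝓞 K)) (S : Finset (Place K)) : Prop where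
  inf : ∀ v : InfinitePlace K, Sum.inl v ∈ S
  fin : ∀ q : HeightOneSpectrum (𝓞 K), Sum.inr q ∈ S ↔ 𝔣 ≤ q.asIdeal

open Classical in
theorem IsModulus.card {𝔣 : Ideal (𝓞 K)} {S : Finset (Place K)} (h : IsModulus 𝔣 S)
    (hf : 𝔣 ≠ ⊤) (h2 : 2 ≤ Fintype.card (InfinitePlace K)) (hb : 𝔣 ≠ ⊥) : 3 ≤ S.card := by
  obtain ⟨M, hM, hfM⟩ := Ideal.exists_le_maximal 𝔣 hf
  have hMb : M ≠ ⊥ := by
    rintro rfl
    exact hb (le_bot_iff.1 hfM)
  have h1 : insert (Sum.inr ⟨M, hM.isPrime, hMb⟩ : Place K)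
      ((Finset.univ : Finset (InfinitePlace K)).map ⟨Sum.inl, Sum.inl_injective⟩) ⊆ S := by
    intro x hx
    rw [Finset.mem_insert, Finset.mem_map] at hx
    rcases hx with rfl | ⟨v, -, rfl⟩
    · exact (h.fin _).2 hfM
    · exact h.inf v
  have h3 := Finset.card_le_card h1
  rw [Finset.card_insert_of_notMem (by simp), Finset.card_map, Finset.card_univ] at h3
  omega

open Classical in
theorem IsModulus.card' {𝔣 : Ideal (𝓞 K)} {S : Finset (Place K)} (h : IsModulus 𝔣 S)
    (h2 : 3 ≤ Fintype.card (InfinitePlace K)) : 3 ≤ S.card := by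
  have h1 : ((Finset.univ : Finset (InfinitePlace K)).map ⟨Sum.inl, Sum.inl_injective⟩ :
      Finset (Place K)) ⊆ S := by
    intro x hx
    rw [Finset.mem_map] at hx
    obtain ⟨v, -, rfl⟩ := hx
    exact h.inf v
  have h3 := Finset.card_le_card h1
  rw [Finset.card_map, Finset.card_univ] at h3
  omega

end Pool.Agent.N820.RS
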