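import Pool.Agent.N598.ST.Gen

/-!
# Stark units over a real embedding: the local-global principle (helper820)
-/

set_option autoImplicit false

namespace Pool.Agent.N820.RS

open NumberField IsDedekindDomain Pool.Agent.N598.ST

section

variable {K H : Type} [Field K] [NumberField K] [Field H] [NumberField H] [Algebra K H]

/-- `φ` is a function on `Gal(H/K)` for which there is a unit `ε` of `H` such that
`ρ ε = exp (- 2 φ(ρ))` in the real embedding `σ`, for all `ρ`, and `|τ ε| = 1` for all complex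
embeddings `τ` which are not equal to `s₁` on `K`. -/
def Real2 (s₁ : K →+* ℝ) (σ : H →+* ℝ) (φ : Gal(H/K) → ℂ) : Prop :=
  ∃ ε : (𝓞 H)ˣ,
    (∀ ρ : Gal(H/K), ((σ (ρ ((ε : 𝓞 H) : H)) : ℝ) : ℂ) = Complex.exp (-(2 * φ ρ))) ∧
    ∀ τ : H →+* ℂ, τ.comp (algebraMap K H) ≠ Complex.ofRealHom.comp s₁ →
      ‖τ ((ε : 𝓞 H) : H)‖ = 1

/-- `c` times the assertion (`c = 1` is the assertion of the problem) for `H / K`, `S` and the real
embedding `s₁` of `K`: for every real embedding `σ` of `H` above `s₁`, the Artin map `a` and the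
partial zeta functions `ζ ρ`, there is a unit `ε` of `H` such that
1. `ρ ε = exp (- 2 c ζ'(ρ, 0))` in the embedding `σ`, for all `ρ` in `Gal(H/K)`;
2. `|τ ε| = 1` for every embedding `τ` of `H` in `ℂ` whose restriction to `K` is not `s₁`. -/
def UMul (K H : Type) [Field K] [NumberField K] [Field H] [NumberField H] [Algebra K H]
    (c : ℤ) (S : Finset (Place K)) (s₁ : K →+* ℝ) : Prop :=
  ∀ σ : H →+* ℝ, σ.comp (algebraMap K H) = s₁ →
    ∀ a : Ideal (𝓞 K) → Gal(H/K), IsArtin S a →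
      ∀ ζ : Gal(H/K) → ℂ → ℂ, (∀ ρ, IsZeta S a ρ (ζ ρ)) →
        ∃ ε : (𝓞 H)ˣ,
          (∀ ρ : Gal(H/K), ((σ (ρ ((ε : 𝓞 H) : H)) : ℝ) : ℂ) =
            Complex.exp (-(2 * c * deriv (ζ ρ) 0))) ∧
          ∀ τ : H →+* ℂ, τ.comp (algebraMap K H) ≠ Complex.ofRealHom.comp s₁ →
            ‖τ ((ε : 𝓞 H) : H)‖ = 1

/-- The `l`-part: some multiple by an integer `c` prime to `l` holds. -/
def UPart (K H : Type) [Field K] [NumberField K] [Field H] [NumberField H] [Algebra K H]
    (l : ℕ) (S : Finset (Place K)) (s₁ : K →+* ℝ) : Prop :=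
  ∃ c : ℤ, ¬ (l : ℤ) ∣ c ∧ UMul K H c S s₁

/-- the good functions form a group -/
def real2Sub (s₁ : K →+* ℝ) (σ : H →+* ℝ) : AddSubgroup (Gal(H/K) → ℂ) where
  carrier := {φ | Real2 s₁ σ φ}
  add_mem' := by
    rintro φ ψ ⟨x, hx, hx'⟩ ⟨y, hy, hy'⟩
    refine ⟨x * y, fun ρ => ?_, fun τ hτ => ?_⟩
    · have e : (((x * y : (𝓞 H)ˣ) : 𝓞 H) : H) = ((x : 𝓞 H) : H) * ((y : 𝓞 H) : H) := rfl
      rw [e, map_mul, map_mul, Complex.ofReal_mul, hx ρ, hy ρ, ← Complex.exp_add]
      congr 1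
      simp only [Pi.add_apply]
      ring
    · have e : (((x * y : (𝓞 H)ˣ) : 𝓞 H) : H) = ((x : 𝓞 H) : H) * ((y : 𝓞 H) : H) := rfl
      rw [e, map_mul, norm_mul, hx' τ hτ, hy' τ hτ, one_mul]
  zero_mem' := ⟨1, fun ρ => by simp, fun τ _ => by simp⟩
  neg_mem' := by
    rintro φ ⟨x, hx, hx'⟩
    have e : ((((x⁻¹ : (𝓞 H)ˣ)) : 𝓞 H) : H) = (((x : 𝓞 H) : H))⁻¹ := by
      refine eq_inv_of_mul_eq_one_left ?_
      simp
    refine ⟨x⁻¹, fun ρ => ?_, fun τ hτ => ?_⟩
    · rw [e, map_inv₀, map_inv₀, Complex.ofReal_inv, hx ρ, ← Complex.exp_neg]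
      congr 1
      simp only [Pi.neg_apply]
      ring
    · rw [e, map_inv₀, norm_inv, hx' τ hτ, inv_one]

theorem umul_iff (c : ℤ) (S : Finset (Place K)) (s₁ : K →+* ℝ) :
    UMul K H c S s₁ ↔ ∀ σ : H →+* ℝ, σ.comp (algebraMap K H) = s₁ →
      ∀ a : Ideal (𝓞 K) → Gal(H/K), IsArtin S a →
        ∀ ζ : Gal(H/K) → ℂ → ℂ, (∀ ρ, IsZeta S a ρ (ζ ρ)) →
          c • (fun ρ => deriv (ζ ρ) 0) ∈ real2Sub s₁ σ := by
  unfold UMul
  refine forall_congr' fun σ => forall_congr' fun hσ => forall_congr' fun a =>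
    forall_congr' fun ha => forall_congr' fun ζ => forall_congr' fun hζ => exists_congr fun ε => ?_
  refine and_congr (forall_congr' fun ρ => ?_) Iff.rfl
  have e : -(2 * (c : ℂ) * deriv (ζ ρ) 0) = -(2 * (c • (fun ρ => deriv (ζ ρ) 0)) ρ) := by
    simp only [Pi.smul_apply, zsmul_eq_mul]
    ring
  rw [e]

end

section

variable {K F H : Type} [Field K] [NumberField K] [Field F] [NumberField F] [Field H]
  [NumberField H] [Algebra K F] [Algebra F H] [Algebra K H] [IsScalarTower K F H]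

open Classical in
/-- a multiple of the assertion for `F` gives a good function for `H` -/
theorem real2_of_sub [Normal K F] {S : Finset (Place K)} {s₁ : K →+* ℝ} {c : ℤ}
    (hF : UMul K F c S s₁) (σ : H →+* ℝ) (hσ : σ.comp (algebraMap K H) = s₁)
    {a : Ideal (𝓞 K) → Gal(H/K)} (ha : IsArtin S a) {Z : Gal(H/K) → ℂ → ℂ}
    (hZ : ∀ g, IsZeta S a g (Z g)) :
    Real2 s₁ σ (fun g => c * ∑ h : Gal(H/K),
      if AlgEquiv.restrictNormalHom F h = AlgEquiv.restrictNormalHom F g
        then deriv (Z h) 0 else 0) := by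
  have htow : (algebraMap F H).comp (algebraMap K F) = algebraMap K H :=
    (IsScalarTower.algebraMap_eq K F H).symm
  obtain ⟨ε, h1, h2⟩ := hF (σ.comp (algebraMap F H)) (by rw [RingHom.comp_assoc, htow, hσ]) _
    (ha.restrict (F := F)) _ (fun u => IsZeta.restrict hZ u)
  refine ⟨Units.map (algebraMap (𝓞 F) (𝓞 H)).toMonoidHom ε, fun g => ?_, fun τ hτ => ?_⟩
  · have e : (((Units.map (algebraMap (𝓞 F) (𝓞 H)).toMonoidHom ε : (𝓞 H)ˣ) : 𝓞 H) : H) =
        algebraMap F H ((ε : 𝓞 F) : F) := rfl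
    have h4 := h1 (AlgEquiv.restrictNormalHom F g)
    rw [deriv_restrict hZ] at h4
    have h5 : g (algebraMap F H ((ε : 𝓞 F) : F)) =
        algebraMap F H (AlgEquiv.restrictNormalHom F g ((ε : 𝓞 F) : F)) :=
      (AlgEquiv.restrictNormal_commutes g F ((ε : 𝓞 F) : F)).symm
    rw [e, h5]
    refine h4.trans ?_
    congr 1
    ring
  · have e : (((Units.map (algebraMap (𝓞 F) (𝓞 H)).toMonoidHom ε : (𝓞 H)ˣ) : 𝓞 H) : H) =
        algebraMap F H ((ε : 𝓞 F) : F) := rfl
    rw [e]
    refine h2 (τ.comp (algebraMap F H)) ?_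
    rwa [RingHom.comp_assoc, htow]

end

section

variable {K : Type} [Field K] [NumberField K]

/-- the multiples which hold form an ideal of the integers -/
def uIdeal (K H : Type) [Field K] [NumberField K] [Field H] [NumberField H] [Algebra K H]
    (S : Finset (Place K)) (s₁ : K →+* ℝ) : AddSubgroup ℤ where
  carrier := {c | UMul K H c S s₁}
  add_mem' := by
    intro a b ha hb
    rw [Set.mem_ofPred_eq, umul_iff] at ha hb ⊢
    intro σ hσ a ha' Z hZ
    rw [add_smul]
    exact AddSubgroup.add_mem _ (ha σ hσ a ha' Z hZ) (hb σ hσ a ha' Z hZ)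
  zero_mem' := by
    rw [Set.mem_ofPred_eq, umul_iff]
    intro σ hσ a ha' Z hZ
    rw [zero_smul]
    exact AddSubgroup.zero_mem _
  neg_mem' := by
    intro a ha
    rw [Set.mem_ofPred_eq, umul_iff] at ha ⊢
    intro σ hσ a ha' Z hZ
    rw [neg_smul]
    exact AddSubgroup.neg_mem _ (ha σ hσ a ha' Z hZ)

open Classical in
/-- `l * c` times the assertion from `c` times the assertion for the proper subextensions -/
theorem umul_prime {H : Type} [Field H] [NumberField H] [Algebra K H] [IsAbelianGalois K H]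
    {S : Finset (Place K)} {s₁ : K →+* ℝ} {c : ℤ}
    (hF : ∀ N : Subgroup Gal(H/K), N ≠ ⊥ → UMul K (IntermediateField.fixedField N) c S s₁)
    (l : ℕ) (hl : l.Prime) (V : Subgroup Gal(H/K)) (hV : Nat.card V = l ^ 2)
    (hV2 : ∀ t ∈ V, t ^ l = 1) : UMul K H (c * l) S s₁ := by
  rw [umul_iff]
  intro σ hσ a ha Z hZ
  have hN : ∀ N : Subgroup Gal(H/K), N ≠ ⊥ →
      (fun g => c * ∑ h : Gal(H/K), if g⁻¹ * h ∈ N then deriv (Z h) 0 else 0) ∈
        real2Sub s₁ σ := by
    intro N hN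
    have h2 := real2_of_sub (F := IntermediateField.fixedField N) (hF N hN) σ hσ ha hZ
    have e : (fun g => c * ∑ h : Gal(H/K), if g⁻¹ * h ∈ N then deriv (Z h) 0 else 0) =
        (fun g => c * ∑ h : Gal(H/K),
          if AlgEquiv.restrictNormalHom (IntermediateField.fixedField N) h =
            AlgEquiv.restrictNormalHom (IntermediateField.fixedField N) g
          then deriv (Z h) 0 else 0) := by
      funext g
      congr 1
      refine Finset.sum_congr rfl fun h _ => ?_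
      have : g⁻¹ * h ∈ N ↔ AlgEquiv.restrictNormalHom (IntermediateField.fixedField N) h =
            AlgEquiv.restrictNormalHom (IntermediateField.fixedField N) g := by
        conv_lhs => rw [← IntermediateField.fixingSubgroup_fixedField N]
        rw [← IntermediateField.restrictNormalHom_ker, MonoidHom.mem_ker, map_mul, map_inv,
          inv_mul_eq_one, eq_comm]
      simp only [this]
    rw [e]; exact h2
  have hV0 : V ≠ ⊥ := by
    intro h0
    rw [h0, Subgroup.card_bot] at hV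
    have := Nat.one_lt_pow (n := 2) (by norm_num) hl.one_lt
    omega
  have hsum : (∑ N : Subgroup Gal(H/K), if N ≤ V ∧ Nat.card N = l then
      (fun g => c * ∑ h : Gal(H/K), if g⁻¹ * h ∈ N then deriv (Z h) 0 else 0) else 0) ∈
      real2Sub s₁ σ := by
    apply AddSubgroup.sum_mem
    intro N _
    split_ifs with hc
    · apply hN
      intro h0
      rw [h0, Subgroup.card_bot] at hc
      exact hl.one_lt.ne hc.2
    · exact AddSubgroup.zero_mem _
  have h2 := AddSubgroup.sub_mem _ hsum (hN V hV0)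
  convert h2 using 1
  funext g
  rw [Pi.sub_apply, Finset.sum_apply]
  have e1 : ∀ N : Subgroup Gal(H/K), (if N ≤ V ∧ Nat.card N = l then
      (fun g => c * ∑ h : Gal(H/K), if g⁻¹ * h ∈ N then deriv (Z h) 0 else 0) else 0) g =
      ∑ h : Gal(H/K), (if N ≤ V ∧ Nat.card N = l then (if g⁻¹ * h ∈ N then (1 : ℂ) else 0) else 0) *
        (c * deriv (Z h) 0) := by
    intro N
    split_ifs with hc
    · change (c : ℂ) * _ = _
      rw [Finset.mul_sum]
      refine Finset.sum_congr rfl fun h _ => ?_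
      split_ifs <;> simp
    · simp
  rw [Finset.sum_congr rfl fun N _ => e1 N, Finset.sum_comm]
  have e2 : ∀ h : Gal(H/K), ∑ N : Subgroup Gal(H/K),
      (if N ≤ V ∧ Nat.card N = l then (if g⁻¹ * h ∈ N then (1 : ℂ) else 0) else 0) *
        (c * deriv (Z h) 0) = ((if g⁻¹ * h ∈ V then 1 else 0) +
          (if g⁻¹ * h = 1 then (l : ℂ) else 0)) * (c * deriv (Z h) 0) := by
    intro h
    rw [← Finset.sum_mul]
    congr 1
    have h3 := relation l hl V hV hV2 (g⁻¹ * h)
    have h4 := congrArg (fun z : ℤ => (z : ℂ)) h3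
    push_cast at h4
    exact h4
  rw [Finset.sum_congr rfl fun h _ => e2 h, Finset.mul_sum, ← Finset.sum_sub_distrib]
  rw [Finset.sum_eq_single g]
  · simp
    ring
  · intro h _ hne
    have : g⁻¹ * h ≠ 1 := fun h0 => hne (inv_mul_eq_one.1 h0).symm
    rw [if_neg this]
    split_ifs <;> simp
  · intro h; exact absurd (Finset.mem_univ _) h

theorem unit_local_global {H : Type} [Field H] [NumberField H] [Algebra K H]
    [IsAbelianGalois K H] (S : Finset (Place K)) (s₁ : K →+* ℝ) :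
    (∀ l : ℕ, l.Prime →
      (∀ (L : Type) [Field L] [NumberField L] [Algebra K L], Nonempty (L →ₐ[K] H) →
        CyclicOutside l Gal(L/K) → UPart K L l S s₁) → UPart K H l S s₁) ∧
    (UMul K H 1 S s₁ ↔ ∀ l : ℕ, l.Prime → UPart K H l S s₁) := by
  refine ⟨fun l hl hyp => ?_, fun h l hl => ⟨1, fun h1 => ?_, h⟩, fun h => ?_⟩
  · refine part_principle (K := K) (fun H _ _ _ _ c => UMul K H c S s₁)
      (fun H _ _ _ _ => True) (fun H _ _ _ _ _ N => trivial) (fun H _ _ _ _ c k hc => ?_)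
      (fun H _ _ _ _ _ c hF m hm V hV hV2 => umul_prime hF m hm V hV hV2) l hl _ H rfl trivial
      (fun L _ _ _ _ hL hc => hyp L hL hc)
    exact AddSubgroup.zsmul_mem (uIdeal K H S s₁) hc k
  · have : l ∣ 1 := by exact_mod_cast h1
    exact hl.one_lt.ne' (Nat.dvd_one.1 this)
  · exact one_of_parts (uIdeal K H S s₁) h

end

end Pool.Agent.N820.RS
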