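import Pool.Agent.N820.RS.Gen

/-!
# Base fields with exactly one complex place (helper820)
-/

set_option autoImplicit false

namespace Pool.Agent.N820.RS

open NumberField IsDedekindDomain Pool.Agent.N598.ST

/-- The place `w` of `H` lies above a complex place of `K`. -/
def OverComplex (K : Type) {H : Type} [Field K] [NumberField K] [Field H] [NumberField H]
    [Algebra K H] (w : Place H) : Prop :=
  ∃ v : InfinitePlace H, w = .inl v ∧ (v.comap (algebraMap K H)).IsComplex

/-- `c` times Stark's conjecture for `H / K` and `S` (`K` has exactly one complex place), `c = 1` is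
the conjecture: for every infinite place `v` of `H` above the complex place of `K`, the Artin map `a`
and the partial zeta functions `ζ ρ`, there is `u ≠ 0` in `H` such that
1. `|u|_w = 1` for all places `w` of `H` which do not lie above the complex place of `K`;
2. `log |ρ u|_v = - c e ζ'(ρ, 0)` for all `ρ` in `Gal(H/K)`, `e` the number of the roots of unity
   in `H` (normalised absolute value: `|x|_v` is the square of the usual absolute value);
3. `H(u^(1/e)) / K` is abelian. -/
def CMul (K H : Type) [Field K] [NumberField K] [Field H] [NumberField H] [Algebra K H]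
    (c : ℤ) (S : Finset (Place K)) : Prop :=
  ∀ v : InfinitePlace H, (v.comap (algebraMap K H)).IsComplex →
    ∀ a : Ideal (𝓞 K) → Gal(H/K), IsArtin S a →
      ∀ ζ : Gal(H/K) → ℂ → ℂ, (∀ ρ, IsZeta S a ρ (ζ ρ)) →
        ∃ u : H, u ≠ 0 ∧ (∀ w : Place H, ¬ OverComplex K w → nabs w u = 1) ∧
          (∀ ρ : Gal(H/K), (Real.log (nabs (.inl v) (ρ u)) : ℂ) = -(c * W H * deriv (ζ ρ) 0)) ∧
          AbRoot K (W H) u

/-- The `l`-part of Stark's conjecture for `H / K` and `S`: some multiple by an integer `c` prime to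
`l` holds. -/
def CPart (K H : Type) [Field K] [NumberField K] [Field H] [NumberField H] [Algebra K H]
    (l : ℕ) (S : Finset (Place K)) : Prop :=
  ∃ c : ℤ, ¬ (l : ℤ) ∣ c ∧ CMul K H c S

section

variable {K H : Type} [Field K] [NumberField K] [Field H] [NumberField H] [Algebra K H]

theorem exists_complex (h : InfinitePlace.nrComplexPlaces K = 1) :
    ∃ v₀ : InfinitePlace K, v₀.IsComplex ∧ ∀ v : InfinitePlace K, v.IsComplex → v = v₀ := by
  classical
  have h1 : Nat.card {w : InfinitePlace K // w.IsComplex} = 1 := by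
    rw [← h]
    unfold InfinitePlace.nrComplexPlaces
    rw [Nat.card_eq_fintype_card]
  obtain ⟨hs, ⟨v₀, h0⟩⟩ := Nat.card_eq_one_iff_unique.1 h1
  exact ⟨v₀, h0, fun v hv => congrArg Subtype.val
    (hs.elim (⟨v, hv⟩ : {w : InfinitePlace K // w.IsComplex}) ⟨v₀, h0⟩)⟩

theorem over_iff {v₀ : InfinitePlace K} (h0 : v₀.IsComplex)
    (h1 : ∀ v : InfinitePlace K, v.IsComplex → v = v₀) (w : Place H) :
    Over K H w (.inl v₀) ↔ OverComplex K w := by
  match w with
  | .inl v =>
    constructor
    · intro h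
      have h : v.comap (algebraMap K H) = v₀ := h
      exact ⟨v, rfl, h ▸ h0⟩
    · rintro ⟨v', hv, h⟩
      obtain rfl : v = v' := Sum.inl_injective hv
      exact h1 _ h
  | .inr P =>
    constructor
    · intro h
      exact h.elim
    · rintro ⟨v', hv, h⟩
      exact absurd hv (by simp)

theorem cmul_iff {v₀ : InfinitePlace K} (h0 : v₀.IsComplex)
    (h1 : ∀ v : InfinitePlace K, v.IsComplex → v = v₀) (c : ℤ) (S : Finset (Place K)) :
    CMul K H c S ↔ PMul K H c S (.inl v₀) := by
  unfold CMul PMul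
  simp only [over_iff h0 h1]
  constructor
  · rintro h P ⟨v, rfl, hv⟩ a ha Z hZ
    exact h v hv a ha Z hZ
  · intro h v hv a ha Z hZ
    exact h (.inl v) ⟨v, rfl, hv⟩ a ha Z hZ

theorem onecomplex (h : InfinitePlace.nrComplexPlaces K = 1) {S : Finset (Place K)}
    (hS : ∀ v : InfinitePlace K, Sum.inl v ∈ S) (h3 : 3 ≤ S.card) [IsAbelianGalois K H] :
    (∀ l : ℕ, l.Prime →
      (∀ (L : Type) [Field L] [NumberField L] [Algebra K L], Nonempty (L →ₐ[K] H) →
        CyclicOutside l Gal(L/K) → CPart K L l S) → CPart K H l S) ∧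
    (CMul K H 1 S ↔ ∀ l : ℕ, l.Prime → CPart K H l S) := by
  obtain ⟨v₀, h0, h1⟩ := exists_complex h
  obtain ⟨ha, hb⟩ := local_global (H := H) h3 (hS v₀) (split_complex v₀ h0)
  constructor
  · intro l hl hyp
    obtain ⟨c, h4, h5⟩ := ha l hl fun L _ _ _ hL hc => by
      obtain ⟨c, h4, h5⟩ := hyp L hL hc
      exact ⟨c, h4, (cmul_iff h0 h1 c S).1 h5⟩
    exact ⟨c, h4, (cmul_iff h0 h1 c S).2 h5⟩
  · rw [cmul_iff h0 h1, hb]
    refine forall_congr' fun l => forall_congr' fun hl => exists_congr fun c => ?_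
    rw [cmul_iff h0 h1]

end

end Pool.Agent.N820.RS
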