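import Pool.Agent.N820.RS.Gen

/-!
# The split place is real (helper820)
-/

set_option autoImplicit false

namespace Pool.Agent.N820.RS

open NumberField IsDedekindDomain Pool.Agent.N598.ST

/-- `c` times the conjecture (`c = 1` is the conjecture) for `H / K`, `S` and the real place `v₁` of
`K`, above which all places of `H` are real: for every place `v` of `H` above `v₁`, the Artin map `a`
and the partial zeta functions `ζ ρ`, there is `u ≠ 0` in `H` such that
1. `|u|_w = 1` for all places `w` of `H` which do not lie above `v₁`;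
2. `log |ρ u|_v = - 2 c ζ'(ρ, 0)` for all `ρ` in `Gal(H/K)`;
3. `H(u^(1/2)) / K` is abelian. -/
def RMul (K H : Type) [Field K] [NumberField K] [Field H] [NumberField H] [Algebra K H]
    (c : ℤ) (S : Finset (Place K)) (v₁ : InfinitePlace K) : Prop :=
  ∀ v : InfinitePlace H, v.comap (algebraMap K H) = v₁ →
    ∀ a : Ideal (𝓞 K) → Gal(H/K), IsArtin S a →
      ∀ ζ : Gal(H/K) → ℂ → ℂ, (∀ ρ, IsZeta S a ρ (ζ ρ)) →
        ∃ u : H, u ≠ 0 ∧
          (∀ w : Place H, (∀ v' : InfinitePlace H, w = .inl v' →
            v'.comap (algebraMap K H) ≠ v₁) → nabs w u = 1) ∧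
          (∀ ρ : Gal(H/K), (Real.log (v (ρ u)) : ℂ) = -(2 * c * deriv (ζ ρ) 0)) ∧
          AbRoot K 2 u

/-- The `l`-part of the conjecture: some multiple by an integer `c` prime to `l` holds. -/
def RPart (K H : Type) [Field K] [NumberField K] [Field H] [NumberField H] [Algebra K H]
    (l : ℕ) (S : Finset (Place K)) (v₁ : InfinitePlace K) : Prop :=
  ∃ c : ℤ, ¬ (l : ℤ) ∣ c ∧ RMul K H c S v₁

section

variable {K H : Type} [Field K] [NumberField K] [Field H] [NumberField H] [Algebra K H]

omit [NumberField H] in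
theorem W_eq_two (w : InfinitePlace H) (hw : w.IsReal) : W H = 2 := by
  unfold W
  rw [Nat.card_eq_two_iff]
  have hmem : (-1 : Hˣ) ∈ CommGroup.torsion Hˣ := by
    rw [CommGroup.mem_torsion, isOfFinOrder_iff_pow_eq_one]
    exact ⟨2, by norm_num, by simp⟩
  refine ⟨1, ⟨-1, hmem⟩, ?_, ?_⟩
  · intro h
    have h1 : (1 : Hˣ) = -1 := congrArg Subtype.val h
    have h2 : (1 : H) = -1 := by
      have := congrArg Units.val h1
      simpa using this
    have h3 : (InfinitePlace.embedding_of_isReal hw) (1 : H) =
        (InfinitePlace.embedding_of_isReal hw) (-1) := congrArg _ h2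
    rw [map_neg, map_one] at h3
    norm_num at h3
  · rw [Set.eq_univ_iff_forall]
    rintro ⟨x, hx⟩
    rw [CommGroup.mem_torsion, isOfFinOrder_iff_pow_eq_one] at hx
    obtain ⟨n, hn, hxn⟩ := hx
    have h1 : ((x : H)) ^ n = 1 := by
      rw [← Units.val_pow_eq_pow_val, hxn, Units.val_one]
    have h2 : ((InfinitePlace.embedding_of_isReal hw) (x : H)) ^ n = 1 := by
      rw [← map_pow, h1, map_one]
    have h3 : |(InfinitePlace.embedding_of_isReal hw) (x : H)| = 1 := by
      have h4 : |(InfinitePlace.embedding_of_isReal hw) (x : H)| ^ n = 1 := by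
        rw [← abs_pow, h2, abs_one]
      exact (pow_eq_one_iff_of_nonneg (abs_nonneg _) hn.ne').1 h4
    have h5 : (InfinitePlace.embedding_of_isReal hw) (x : H) = 1 ∨
        (InfinitePlace.embedding_of_isReal hw) (x : H) = -1 := (abs_eq zero_le_one).1 h3
    have hinj := (InfinitePlace.embedding_of_isReal hw).injective
    simp only [Set.mem_insert_iff, Set.mem_singleton_iff]
    rcases h5 with h5 | h5
    · left
      apply Subtype.ext
      apply Units.ext
      apply hinj
      rw [h5]
      simp
    · right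
      apply Subtype.ext
      apply Units.ext
      apply hinj
      rw [h5]
      simp

theorem not_over_iff (v₁ : InfinitePlace K) (w : Place H) :
    (∀ v' : InfinitePlace H, w = .inl v' → v'.comap (algebraMap K H) ≠ v₁) ↔
      ¬ Over K H w (.inl v₁) := by
  match w with
  | .inl v =>
    constructor
    · intro h h'
      exact h v rfl h'
    · rintro h v' hv h'
      obtain rfl : v = v' := Sum.inl_injective hv
      exact h h'
  | .inr P =>
    constructor
    · intro _ h
      exact h.elim
    · intro _ v' hv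
      exact absurd hv (by simp)

theorem rmul_iff {v₁ : InfinitePlace K}
    (hr : ∀ w : InfinitePlace H, w.comap (algebraMap K H) = v₁ → w.IsReal) (c : ℤ)
    (S : Finset (Place K)) : RMul K H c S v₁ ↔ PMul K H c S (.inl v₁) := by
  have hn : ∀ v : InfinitePlace H, v.comap (algebraMap K H) = v₁ → ∀ x : H,
      nabs (.inl v) x = v x := by
    intro v hv x
    change v x ^ v.mult = v x
    have : v.mult = 1 := by
      unfold InfinitePlace.mult
      rw [if_pos (hr v hv)]
    rw [this, pow_one]
  unfold RMul PMul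
  simp only [not_over_iff]
  constructor
  · intro h P hP a ha Z hZ
    match P, hP with
    | .inl v, hv =>
      have hv : v.comap (algebraMap K H) = v₁ := hv
      obtain ⟨u, h1, h2, h3, h4⟩ := h v hv a ha Z hZ
      refine ⟨u, h1, h2, fun g => ?_, ?_⟩
      · rw [hn v hv, h3 g, W_eq_two v (hr v hv)]
        push_cast
        ring
      · rw [W_eq_two v (hr v hv)]
        exact h4
    | .inr P, h => exact h.elim
  · intro h v hv a ha Z hZ
    obtain ⟨u, h1, h2, h3, h4⟩ := h (.inl v) hv a ha Z hZ
    rw [W_eq_two v (hr v hv)] at h3 h4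
    refine ⟨u, h1, h2, fun g => ?_, h4⟩
    have h5 := h3 g
    rw [hn v hv] at h5
    rw [h5]
    push_cast
    ring

theorem split_real {v₁ : InfinitePlace K}
    (hr : ∀ w : InfinitePlace H, w.comap (algebraMap K H) = v₁ → w.IsReal) :
    TotallySplit K H (.inl v₁) := by
  intro w hw
  have h1 : w.mult = 1 := by
    unfold InfinitePlace.mult
    rw [if_pos (hr w hw)]
  have h2 : v₁.mult = 1 := by
    unfold InfinitePlace.mult
    rw [if_pos (hw ▸ (hr w hw).comap _)]
  rw [h1, h2]

theorem real_sub {L : Type} [Field L] [NumberField L] [Algebra K L] (f : L →ₐ[K] H)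
    {v₁ : InfinitePlace K}
    (hr : ∀ w : InfinitePlace H, w.comap (algebraMap K H) = v₁ → w.IsReal) :
    ∀ w : InfinitePlace L, w.comap (algebraMap K L) = v₁ → w.IsReal := by
  let _ : Algebra L H := f.toRingHom.toAlgebra
  have : IsScalarTower K L H := IsScalarTower.of_algebraMap_eq' f.comp_algebraMap.symm
  intro w hw
  obtain ⟨w', hw'⟩ := InfinitePlace.comap_surjective (k := L) (K := H) w
  have hw' : w'.comap (algebraMap L H) = w := hw'
  have h1 : w'.comap (algebraMap K H) = v₁ := by
    rw [← comap_tower (F := L), hw', hw]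
  rw [← hw']
  exact (hr w' h1).comap _

theorem real_local_global {v₁ : InfinitePlace K}
    (hr : ∀ w : InfinitePlace H, w.comap (algebraMap K H) = v₁ → w.IsReal)
    {S : Finset (Place K)} (hS : ∀ v : InfinitePlace K, Sum.inl v ∈ S) (h3 : 3 ≤ S.card)
    [IsAbelianGalois K H] :
    (∀ l : ℕ, l.Prime →
      (∀ (L : Type) [Field L] [NumberField L] [Algebra K L], Nonempty (L →ₐ[K] H) →
        CyclicOutside l Gal(L/K) → RPart K L l S v₁) → RPart K H l S v₁) ∧
    (RMul K H 1 S v₁ ↔ ∀ l : ℕ, l.Prime → RPart K H l S v₁) := by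
  obtain ⟨ha, hb⟩ := local_global (H := H) h3 (hS v₁) (split_real hr)
  constructor
  · intro l hl hyp
    obtain ⟨c, h4, h5⟩ := ha l hl fun L _ _ _ hL hc => by
      obtain ⟨c, h4, h5⟩ := hyp L hL hc
      obtain ⟨f⟩ := hL
      exact ⟨c, h4, (rmul_iff (real_sub f hr) c S).1 h5⟩
    exact ⟨c, h4, (rmul_iff hr c S).2 h5⟩
  · rw [rmul_iff hr, hb]
    refine forall_congr' fun l => forall_congr' fun hl => exists_congr fun c => ?_
    rw [rmul_iff hr]

end

end Pool.Agent.N820.RS
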